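import Pool.Agent.Helper60.TWR.TRSb
import Pool.Agent.Helper40.JZ.Stmts

/-!
Row TRS of the sheet TW: factors of type `q`, one step.
-/

set_option linter.unusedSectionVars false

open MeasureTheory Filter Topology Finset
open scoped ComplexConjugate

namespace Pool.Agent.Helper60.TWR

open Pool.Agent.Helper98.TW
open Pool.Agent.Helper29.TWR
open Pool.Agent.Helper16.AZ (T mm)
open Pool.Agent.Helper13.TWR (ex_eq norm_ex ex_mul_conj meas_ex uf_ex am_tr inc_ex ex_not_am)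

variable {N : ℕ} {lev : Fin N → ℕ} {f f' : Fin N → T N → U} {l : ℕ} {a b : Fin N → ℤ}

/-! ### the Hilbert space of the homogeneous functions -/

/-- the homogeneous functions of one character -/
def Ka (lev : Fin N → ℕ) (l : ℕ) (a : Fin N → ℤ) : Submodule ℂ (Lp ℂ 2 (mm N)) where
  carrier := {G | AM (mm N) (AL lev l) (fun x => conj (ex a x) * G x)}
  add_mem' {G G'} h h' := by
    refine am_congr (am_add h h') ?_
    filter_upwards [Lp.coeFn_add G G'] with x hx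
    rw [hx, Pi.add_apply]
    ring
  zero_mem' := by
    refine am_congr (am_const (μ := mm N) (𝒜 := AL lev l) 0) ?_
    filter_upwards [Lp.coeFn_zero ℂ 2 (mm N)] with x hx
    rw [hx]
    simp
  smul_mem' c G h := by
    refine am_congr (am_mul (am_const c) h) ?_
    filter_upwards [Lp.coeFn_smul c G] with x hx
    rw [hx, Pi.smul_apply, smul_eq_mul]
    ring

theorem mem_Ka {G : Lp ℂ 2 (mm N)} :
    G ∈ Ka lev l a ↔ AM (mm N) (AL lev l) (fun x => conj (ex a x) * G x) := Iff.rfl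

theorem Ka_closed : IsClosed ((Ka lev l a : Submodule ℂ (Lp ℂ 2 (mm N))) :
    Set (Lp ℂ 2 (mm N))) := by
  refine IsSeqClosed.isClosed ?_
  intro G G' hG hl
  exact lim_am (h := fun x => conj (ex a x)) hG hl

instance : CompleteSpace (Ka lev l a : Submodule ℂ (Lp ℂ 2 (mm N))) :=
  Ka_closed.completeSpace_coe

/-- the basis of the characters -/
noncomputable def eb (N : ℕ) : HilbertBasis (Fin N → ℤ) ℂ (Lp ℂ 2 (mm N)) :=
  UnitAddTorus.mFourierBasis (d := Fin N)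

theorem eb_ae (X : Fin N → ℤ) : ((eb N X : Lp ℂ 2 (mm N)) : T N → ℂ) =ᵐ[mm N] ex X := by
  have h1 : (eb N X : Lp ℂ 2 (mm N)) = UnitAddTorus.mFourierLp (d := Fin N) 2 X :=
    congrFun UnitAddTorus.coe_mFourierBasis X
  rw [h1]
  exact UnitAddTorus.coeFn_mFourierLp (d := Fin N) 2 X

theorem inner_eb (X : Fin N → ℤ) (G : Lp ℂ 2 (mm N)) :
    (inner ℂ (eb N X) G : ℂ) = ∫ x, ex (-X) x * G x ∂(mm N) := by
  rw [L2.inner_def]
  refine integral_congr_ae ?_
  filter_upwards [eb_ae X] with x hx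
  rw [hx, RCLike.inner_apply, ex_neg]
  ring

theorem eb_zero {G : Lp ℂ 2 (mm N)} (h : ∀ X, (inner ℂ (eb N X) G : ℂ) = 0) : G = 0 := by
  have h1 := (eb N).hasSum_repr G
  have h2 : (fun i => (eb N).repr G i • eb N i) = fun _ => 0 := by
    funext i
    rw [HilbertBasis.repr_apply_apply, h i, zero_smul]
  rw [h2] at h1
  exact h1.unique hasSum_zero

theorem lb_neg {X : Fin N → ℤ} (h : lb lev l X) : lb lev l (-X) := by
  intro i hi
  exact h i (by simpa using hi)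

theorem eb_mem {X : Fin N → ℤ} (hX : lb lev l (X - a)) : eb N X ∈ Ka lev l a := by
  rw [mem_Ka]
  refine am_congr (am_ex hX) ?_
  filter_upwards [eb_ae X] with x hx
  rw [hx, sub_eq_add_neg, ex_add, ex_neg]
  ring

/-- the Fourier coefficients of homogeneous functions -/
theorem coeff_zero (hCHZ : ST_CHZ) (hALS : ST_ALS) {X : Fin N → ℤ} (hX : ¬ lb lev l (X - a))
    {G : Lp ℂ 2 (mm N)} (hG : G ∈ Ka lev l a) : (inner ℂ (eb N X) G : ℂ) = 0 := by
  rw [inner_eb]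
  rw [mem_Ka] at hG
  have h1 : Integrable (fun x => conj (ex a x) * G x) (mm N) :=
    (eb_uf (uf_ex a).conj).integrable_mul (uf_ex a).conj.1.aestronglyMeasurable
      ((Lp.memLp G).integrable one_le_two)
  have h2 : ¬ lb lev l (a - X) := by
    intro h
    apply hX
    have := lb_neg h
    rwa [neg_sub] at this
  rw [← int_ex_zero hCHZ hALS h2 h1 hG]
  refine integral_congr_ae (ae_of_all _ fun x => ?_)
  simp only
  rw [sub_eq_add_neg, ex_add, ex_neg]
  linear_combination (-(conj (ex X x) * G x)) * ex_mul_conj a x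

/-- the basis of the homogeneous functions -/
theorem exists_basis (hCHZ : ST_CHZ) (hALS : ST_ALS) (lev : Fin N → ℕ) (l : ℕ)
    (a : Fin N → ℤ) : ∃ e : HilbertBasis {b : Fin N → ℤ // lb lev l b} ℂ (Ka lev l a),
    ∀ b, ((e b : Ka lev l a) : Lp ℂ 2 (mm N)) = eb N (a + b.1) := by
  have hmem : ∀ b : {b : Fin N → ℤ // lb lev l b}, eb N (a + b.1) ∈ Ka lev l a := fun b =>
    eb_mem (by rw [add_sub_cancel_left]; exact b.2)
  let v : {b : Fin N → ℤ // lb lev l b} → Ka lev l a := fun b => ⟨eb N (a + b.1), hmem b⟩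
  have hv : Orthonormal ℂ v := by
    have h1 := (eb N).orthonormal.comp (fun b : {b : Fin N → ℤ // lb lev l b} => a + b.1)
      (fun b b' h => Subtype.ext (add_left_cancel h))
    exact ⟨fun i => h1.1 i, fun i j hij => h1.2 hij⟩
  have hsp : (Submodule.span ℂ (Set.range v))ᗮ = ⊥ := by
    rw [Submodule.eq_bot_iff]
    intro G hG
    rw [Submodule.mem_orthogonal] at hG
    apply Subtype.ext
    show (G : Lp ℂ 2 (mm N)) = 0
    apply eb_zero
    intro X
    by_cases hX : lb lev l (X - a)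
    · have h1 := hG (v ⟨X - a, hX⟩) (Submodule.subset_span ⟨_, rfl⟩)
      have h2 : (inner ℂ (v ⟨X - a, hX⟩) G : ℂ) =
          inner ℂ (eb N (a + (X - a))) (G : Lp ℂ 2 (mm N)) := rfl
      rw [h2, add_sub_cancel] at h1
      exact h1
    · exact coeff_zero hCHZ hALS hX G.2
  refine ⟨HilbertBasis.mkOfOrthogonalEqBot hv hsp, fun b => ?_⟩
  rw [HilbertBasis.coe_mkOfOrthogonalEqBot]

/-! ### operators -/

theorem compS_mem (hIAL : ST_IAL) (hT : TI lev f f') (ha : la lev l a)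
    {G G' : Lp ℂ 2 (mm N)} (hG : G ∈ Ka lev l a) (h : ∀ᵐ x ∂(mm N), G' x = G (SS f x)) :
    G' ∈ Ka lev l a := by
  rw [mem_Ka] at hG ⊢
  have hI : IA (mm N) (AL lev l) (SS f) (SS f') := by simpa using hIAL N lev f f' hT l 1
  have h1 := (hI.2 _ hG).1
  refine am_congr (am_mul (inc_ex hT.t ha) h1) ?_
  filter_upwards [h] with x hx
  rw [hx]
  linear_combination (conj (ex a x) * G (SS f x)) * ex_mul_conj a (SS f x)

theorem conj_half : conj (1 / 2 : ℂ) = ((1 / 2 : ℝ) : ℂ) := by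
  have h : (1 / 2 : ℂ) = ((1 / 2 : ℝ) : ℂ) := by push_cast; rfl
  rw [h, Complex.conj_ofReal]

theorem ka_smul_left (c : ℂ) (F G : Ka lev l a) :
    (inner ℂ (c • F) G : ℂ) = conj c * inner ℂ F G :=
  inner_smul_left (F : Lp ℂ 2 (mm N)) (G : Lp ℂ 2 (mm N)) c

theorem ka_smul_right (c : ℂ) (F G : Ka lev l a) :
    (inner ℂ F (c • G) : ℂ) = c * inner ℂ F G :=
  inner_smul_right (F : Lp ℂ 2 (mm N)) (G : Lp ℂ 2 (mm N)) c

theorem ka_self (F : Ka lev l a) : (inner ℂ F F : ℂ) = ((‖F‖ ^ 2 : ℝ) : ℂ) := by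
  have h : (inner ℂ (F : Lp ℂ 2 (mm N)) (F : Lp ℂ 2 (mm N)) : ℂ) =
      ((‖(F : Lp ℂ 2 (mm N))‖ : ℂ)) ^ 2 := inner_self_eq_norm_sq_to_K _
  rw [Complex.ofReal_pow]
  exact h

/-- composition with the transformation on the homogeneous functions -/
theorem exists_US (hMPS : ST_MPS) (hIAL : ST_IAL) (hT : TI lev f f') (ha : la lev l a) :
    ∃ W : Ka lev l a →L[ℂ] Ka lev l a, ∀ G : Ka lev l a,
      ∀ᵐ x ∂(mm N), ((W G : Ka lev l a) : Lp ℂ 2 (mm N)) x = (G : Lp ℂ 2 (mm N)) (SS f x) := by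
  have hS : Sys (mm N) (SS f) (SS f') := by simpa using hMPS N lev f f' hT 1
  let V : Lp ℂ 2 (mm N) →L[ℂ] Lp ℂ 2 (mm N) :=
    (Lp.compMeasurePreservingₗᵢ ℂ (SS f) hS.mp).toContinuousLinearMap
  have hV : ∀ G : Lp ℂ 2 (mm N), ∀ᵐ x ∂(mm N), (V G) x = G (SS f x) := fun G =>
    Lp.coeFn_compMeasurePreserving G hS.mp
  have hmem : ∀ G : Ka lev l a, (V.comp (Ka lev l a).subtypeL) G ∈ Ka lev l a := fun G =>
    compS_mem hIAL hT ha G.2 (hV G)
  refine ⟨(V.comp (Ka lev l a).subtypeL).codRestrict _ hmem, fun G => ?_⟩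
  exact hV G

/-- the conditional expectation on the homogeneous functions -/
theorem exists_PK {C : SA (T N)} (hC : Lm C)
    (hst : ∀ F : T N → ℂ, Integrable F (mm N) →
      AM (mm N) (AL lev l) (fun x => conj (ex a x) * F x) →
      AM (mm N) (AL lev l) (fun x => conj (ex a x) * ((mm N)[F|C]) x)) :
    ∃ P : Ka lev l a →L[ℂ] Ka lev l a, (∀ G, ‖P G‖ ≤ ‖G‖) ∧
      (∀ F G : Ka lev l a, (inner ℂ (P F) G : ℂ) = inner ℂ F (P G)) ∧
      ∀ G : Ka lev l a, ((P G : Ka lev l a) : Lp ℂ 2 (mm N)) =ᵐ[mm N]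
        (mm N)[((G : Lp ℂ 2 (mm N)) : T N → ℂ)|C] := by
  obtain ⟨P0, h1, h2, h3⟩ := exists_ce_op (μ := mm N) hC
  have hmem : ∀ G : Ka lev l a, (P0.comp (Ka lev l a).subtypeL) G ∈ Ka lev l a := by
    intro G
    rw [mem_Ka]
    refine am_congr (hst _ ((Lp.memLp (G : Lp ℂ 2 (mm N))).integrable one_le_two) G.2) ?_
    filter_upwards [h3 (G : Lp ℂ 2 (mm N))] with x hx
    rw [← hx]
    rfl
  refine ⟨(P0.comp (Ka lev l a).subtypeL).codRestrict _ hmem, fun G => ?_, fun F G => ?_,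
    fun G => h3 _⟩
  · show ‖P0 (G : Lp ℂ 2 (mm N))‖ ≤ ‖(G : Lp ℂ 2 (mm N))‖
    have := P0.le_opNorm (G : Lp ℂ 2 (mm N))
    nlinarith [norm_nonneg (G : Lp ℂ 2 (mm N))]
  · exact h2 F G

/-- there are no homogeneous eigenfunctions -/
theorem no_eig (hCHZ : ST_CHZ) (hALS : ST_ALS) (hEG : EG lev f 1) (hl : 1 ≤ l) (ha0 : a ≠ 0)
    (ha : la lev l a) (h : Ka lev l a) (c : ℂ) (hh : h ≠ 0)
    (he : ∀ᵐ x ∂(mm N), (h : Lp ℂ 2 (mm N)) (SS f x) = c * (h : Lp ℂ 2 (mm N)) x) : False := by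
  obtain ⟨k, b, hk, hkb⟩ := hEG.2 (h : Lp ℂ 2 (mm N)) c (Lp.memLp _) (by simpa using he)
  have hb : b ≠ 0 := by
    rintro rfl
    apply hh
    apply Subtype.ext
    apply Lp.ext
    filter_upwards [hkb, Lp.coeFn_zero ℂ 2 (mm N)] with x h1 h2
    rw [h1]
    show 0 * ex k x = ((0 : Lp ℂ 2 (mm N)) : T N → ℂ) x
    rw [h2]
    simp
  have hlb : lb lev l k := by
    intro i hi
    rw [hk i hi]
    exact hl
  have h1 : AM (mm N) (AL lev l) (fun x => conj (ex a x) * (h : Lp ℂ 2 (mm N)) x) := h.2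
  have h2 : AM (mm N) (AL lev l) (fun x => conj (ex a x)) := by
    refine am_congr (am_mul (am_const b⁻¹) (am_mul h1 (am_conj (am_ex hlb)))) ?_
    filter_upwards [hkb] with x hx
    rw [hx]
    have h3 : b⁻¹ * b = 1 := inv_mul_cancel₀ hb
    linear_combination (conj (ex a x) * (ex k x * conj (ex k x))) * h3 +
      conj (ex a x) * ex_mul_conj k x
  have h4 : AM (mm N) (AL lev l) (ex a) := by
    refine am_congr (am_conj h2) (ae_of_all _ fun x => ?_)
    simp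
  exact ex_not_am hCHZ hALS ha0 ha h4

/-! ### one step -/

variable {q : ℕ} {C : ℕ → SA (T N)} {W : ℕ → Set (T N → ℂ)}

theorem QT.sd (h : QT lev f f' q C W) (l : ℕ) : Sd lev l (C l) (W l) where
  lm := (h.ia l).1
  le := h.le l
  grp := h.grp l
  hom := fun _ hψ => (h.hom l hψ).2.1
  ch0 := h.ch0 l

theorem QT.eq (h : QT lev f f' q C W) (l : ℕ) : C (l + 1) = jo (C l) (sg (W l)) := h.succ l

theorem int_sq_le {g : T N → ℂ} (hg : MemLp g 2 (mm N)) :
    (∫ x, ‖g x‖ ∂(mm N)) ^ 2 ≤ ∫ x, ‖g x‖ ^ 2 ∂(mm N) := by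
  have hi : Integrable (fun x => ‖g x‖) (mm N) := (hg.integrable one_le_two).norm
  have h2 : Integrable (fun x => ‖g x‖ ^ 2) (mm N) := int_sq hg
  set t := ∫ x, ‖g x‖ ∂(mm N) with ht
  have h6 : 0 ≤ ∫ x, (‖g x‖ - t) ^ 2 ∂(mm N) := integral_nonneg fun x => sq_nonneg _
  have h7 : ∫ x, (‖g x‖ - t) ^ 2 ∂(mm N) = ∫ x, ‖g x‖ ^ 2 ∂(mm N) - t ^ 2 := by
    have h8 : ∀ x, (‖g x‖ - t) ^ 2 = ‖g x‖ ^ 2 - (2 * t * ‖g x‖ - t ^ 2) := fun x => by ring
    have h9 : Integrable (fun x => 2 * t * ‖g x‖ - t ^ 2) (mm N) :=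
      (hi.const_mul _).sub (integrable_const _)
    have h10 : ∫ x, (2 * t * ‖g x‖ - t ^ 2) ∂(mm N) = 2 * t * t - t ^ 2 := by
      rw [integral_sub (hi.const_mul _) (integrable_const _), integral_const_mul, ← ht]
      simp
    rw [integral_congr_ae (Eventually.of_forall h8), integral_sub h2 h9, h10]
    ring
  linarith

/-- the mean of a nontrivial character -/
theorem int_ex {c : Fin N → ℤ} (hCHZ : ST_CHZ) (hALS : ST_ALS) (lev : Fin N → ℕ) (hc : c ≠ 0) :
    ∫ x, ex c x ∂(mm N) = 0 := by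
  have h1 : ¬ lb lev 0 c := by
    intro h
    apply hc
    funext i
    by_contra h2
    exact absurd (h i h2) (Nat.not_lt_zero _)
  have h2 := int_ex_zero hCHZ hALS h1 (integrable_const (1 : ℂ))
    (am_const (μ := mm N) (𝒜 := AL lev 0) 1)
  simpa using h2

/-- characters of the levels `< l` -/
theorem small_ex (hCHZ : ST_CHZ) (hALS : ST_ALS) (hTR : TR lev f f' l) {c : Fin N → ℤ}
    (hc : c ≠ 0) (hcl : lb lev l c) {ε : ℝ} (hε : 0 < ε) :
    ∃ q₀ : ℕ, ∀ q ≥ q₀, ∀ (C : ℕ → SA (T N)) (W : ℕ → Set (T N → ℂ)),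
      QT lev f f' q C W → ∫ x, ‖((mm N)[ex c|C l]) x‖ ^ 2 ∂(mm N) ≤ ε :=
  hTR (ex c) ((eb_uf (uf_ex c)).memLp (meas_ex c).aestronglyMeasurable) (am_ex hcl)
    (int_ex hCHZ hALS lev hc) ε hε

/-- the Hilbert-Schmidt bound -/
theorem hs_bound (hDNS : ST_DNS) (hCHZ : ST_CHZ) (hALS : ST_ALS)
    (ha : la lev l a) (B : Finset {b : Fin N → ℤ // lb lev l b}) (h : QT lev f f' q C W)
    (hη : ∀ i ∈ B, ∀ j ∈ B, i ≠ j →
      ∫ x, ‖((mm N)[ex (i.1 - j.1)|C l]) x‖ ^ 2 ∂(mm N) ≤ (1 / ((B.card : ℝ) + 1) ^ 2) ^ 2) :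
    ∑ i ∈ B, ∫ x, ‖((mm N)[ex (a + i.1)|C (l + 1)]) x‖ ^ 2 ∂(mm N) ≤ 2 := by
  have hsd := QT.sd h l
  have hint : ∀ X : Fin N → ℤ, Integrable (ex X) (mm N) := fun X =>
    (eb_uf (uf_ex X)).integrable (meas_ex X).aestronglyMeasurable
  have hhom : ∀ i : {b : Fin N → ℤ // lb lev l b},
      AM (mm N) (AL lev l) (fun x => conj (ex a x) * ex (a + i.1) x) := by
    intro i
    refine am_congr (am_ex i.2) (ae_of_all _ fun x => ?_)
    show ex i.1 x = conj (ex a x) * ex (a + i.1) x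
    rw [ex_add]
    linear_combination (-(ex i.1 x)) * ex_mul_conj a x
  rw [QT.eq h l]
  by_cases hno : ∃ ψ ∈ W l, AM (mm N) (AL lev l) (fun x => conj (ex a x) * ψ x)
  · obtain ⟨ψ, hψW, hψa⟩ := hno
    have hψ : UF (mm N) ψ := hsd.grp.uf ψ hψW
    have h1 : ∀ i ∈ B, ∫ x, ‖((mm N)[ex (a + i.1)|jo (C l) (sg (W l))]) x‖ ^ 2 ∂(mm N) =
        ∫ x, ‖((mm N)[fun x => ex (a + i.1) x * conj (ψ x)|C l]) x‖ ^ 2 ∂(mm N) := by
      intro i _
      refine integral_congr_ae ?_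
      filter_upwards [ce_step1 hDNS hCHZ hALS hsd ha hψW hψa (hint _) (hhom i), hψ.2]
        with x hx h2
      rw [hx, norm_mul, h2, one_mul]
    rw [sum_congr rfl h1]
    refine trace_bound (μ := mm N) hsd.lm hψ B (fun i => ex (a + i.1)) (fun i => uf_ex _) ?_
    have h2 : ∀ i ∈ B, ∀ j ∈ B.erase i,
        ∫ x, ‖((mm N)[fun x => ex (a + i.1) x * conj (ex (a + j.1) x)|C l]) x‖ ∂(mm N) ≤
          1 / ((B.card : ℝ) + 1) ^ 2 := by
      intro i hi j hj
      have hij : i ≠ j := (Finset.ne_of_mem_erase hj).symm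
      have h3 := hη i hi j (Finset.mem_of_mem_erase hj) hij
      have h4 : (fun x => ex (a + i.1) x * conj (ex (a + j.1) x)) = ex (i.1 - j.1) := by
        funext x
        rw [ex_add, ex_add, sub_eq_add_neg, ex_add, ex_neg, map_mul]
        linear_combination (ex i.1 x * conj (ex j.1 x)) * ex_mul_conj a x
      rw [h4]
      have h5 : MemLp ((mm N)[ex (i.1 - j.1)|C l]) 2 (mm N) :=
        memLp_ce ((eb_uf (uf_ex _)).memLp (meas_ex _).aestronglyMeasurable)
      have h6 := (int_sq_le h5).trans h3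
      have h7 : (0 : ℝ) ≤ 1 / ((B.card : ℝ) + 1) ^ 2 := by positivity
      exact (pow_le_pow_iff_left₀ (integral_nonneg fun x => norm_nonneg _) h7 two_ne_zero).1 h6
    have h3 : ∑ i ∈ B, ∑ j ∈ B.erase i,
        ∫ x, ‖((mm N)[fun x => ex (a + i.1) x * conj (ex (a + j.1) x)|C l]) x‖ ∂(mm N) ≤
        ∑ i ∈ B, ∑ j ∈ B.erase i, 1 / ((B.card : ℝ) + 1) ^ 2 :=
      sum_le_sum fun i hi => sum_le_sum fun j hj => h2 i hi j hj
    refine h3.trans ?_
    have h4 : ∀ i ∈ B, ∑ _j ∈ B.erase i, 1 / ((B.card : ℝ) + 1) ^ 2 ≤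
        (B.card : ℝ) * (1 / ((B.card : ℝ) + 1) ^ 2) := by
      intro i _
      rw [sum_const, nsmul_eq_mul]
      refine mul_le_mul_of_nonneg_right ?_ (by positivity)
      exact_mod_cast Finset.card_le_card (Finset.erase_subset _ _)
    refine (sum_le_sum h4).trans ?_
    rw [sum_const, nsmul_eq_mul, ← mul_assoc, mul_one_div, div_le_one (by positivity)]
    have : (0 : ℝ) ≤ B.card := Nat.cast_nonneg _
    nlinarith
  · have h1 : ∀ i ∈ B, ∫ x, ‖((mm N)[ex (a + i.1)|jo (C l) (sg (W l))]) x‖ ^ 2 ∂(mm N) = 0 := by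
      intro i _
      have h2 : ∀ᵐ x ∂(mm N), ‖((mm N)[ex (a + i.1)|jo (C l) (sg (W l))]) x‖ ^ 2 = 0 := by
        filter_upwards [ce_step0 hDNS hCHZ hALS hsd ha hno (hint _) (hhom i)] with x hx
        rw [hx]
        simp
      rw [integral_congr_ae h2]
      simp
    rw [sum_congr rfl h1]
    simp

/-- characters of level `l` -/
theorem step_a (hMPS : ST_MPS) (hIAL : ST_IAL) (hALS : ST_ALS) (hCHZ : ST_CHZ)
    (hDNS : ST_DNS) (hCEC : ST_CEC) (hEVC : Pool.Agent.Helper40.JZ.ST_EVC)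
    (hT : TI lev f f') (hEG : EG lev f 1) (hl : 1 ≤ l) (hTR : TR lev f f' l)
    (ha : la lev l a) (ha0 : a ≠ 0) (hb : lb lev l b) {ε : ℝ} (hε : 0 < ε) :
    ∃ q₀ : ℕ, ∀ q ≥ q₀, ∀ (C : ℕ → SA (T N)) (W : ℕ → Set (T N → ℂ)),
      QT lev f f' q C W → ∫ x, ‖((mm N)[ex (a + b)|C (l + 1)]) x‖ ^ 2 ∂(mm N) ≤ ε := by
  classical
  by_contra hcon
  push Not at hcon
  choose Q hQ C W hQT hm using hcon
  have hS : Sys (mm N) (SS f) (SS f') := by simpa using hMPS N lev f f' hT 1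
  obtain ⟨e, he⟩ := exists_basis hCHZ hALS lev l a
  obtain ⟨V, hV⟩ := exists_US hMPS hIAL hT ha
  have hst : ∀ n, ∀ F : T N → ℂ, Integrable F (mm N) →
      AM (mm N) (AL lev l) (fun x => conj (ex a x) * F x) →
      AM (mm N) (AL lev l) (fun x => conj (ex a x) * ((mm N)[F|C n (l + 1)]) x) := by
    intro n F hF hFa
    rw [QT.eq (hQT n) l]
    exact ce_hom hDNS hCHZ hALS (QT.sd (hQT n) l) ha hF hFa
  choose P hP1 hP2 hP3 using fun n => exists_PK (lev := lev) (l := l) (a := a)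
    ((hQT n).ia (l + 1)).1 (hst n)
  let g : Ka lev l a := ⟨eb N (a + b), eb_mem (by rw [add_sub_cancel_left]; exact hb)⟩
  have hnorm : ∀ n (b : Fin N → ℤ) (G : Ka lev l a), ((G : Lp ℂ 2 (mm N)) = eb N (a + b)) →
      ‖P n G‖ ^ 2 = ∫ x, ‖((mm N)[ex (a + b)|C n (l + 1)]) x‖ ^ 2 ∂(mm N) := by
    intro n b G hG
    have h1 : ‖P n G‖ ^ 2 = ‖((P n G : Ka lev l a) : Lp ℂ 2 (mm N))‖ ^ 2 := rfl
    rw [h1, nsq]
    refine integral_congr_ae ?_
    have h2 : (mm N)[((G : Lp ℂ 2 (mm N)) : T N → ℂ)|C n (l + 1)] =ᵐ[mm N]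
        (mm N)[ex (a + b)|C n (l + 1)] := by
      rw [hG]
      exact condExp_congr_ae (eb_ae _)
    filter_upwards [hP3 n G, h2] with x h3 h4
    rw [h3, h4]
  have hidem : ∀ n G, P n (P n G) = P n G := by
    intro n G
    apply Subtype.ext
    apply Lp.ext
    have h1 := hP3 n (P n G)
    have h2 := hP3 n G
    have h3 : (mm N)[(((P n G : Ka lev l a) : Lp ℂ 2 (mm N)) : T N → ℂ)|C n (l + 1)] =ᵐ[mm N]
        (((P n G : Ka lev l a) : Lp ℂ 2 (mm N)) : T N → ℂ) := by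
      refine ce_of_am ((hQT n).ia (l + 1)).1 ((Lp.memLp _).integrable one_le_two) ?_
      exact am_congr am_ce h2.symm
    exact h1.trans h3
  let P' : ℕ → Ka lev l a →L[ℂ] Ka lev l a := fun n => (1 / 2 : ℂ) • P n
  obtain ⟨h, c, hh, hc⟩ := hEVC (Ka lev l a) {b : Fin N → ℤ // lb lev l b} e V P' g (ε / 2)
    (by linarith)
    (by
      intro n
      refine ContinuousLinearMap.opNorm_le_bound _ zero_le_one fun G => ?_
      show ‖(1 / 2 : ℂ) • P n G‖ ≤ 1 * ‖G‖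
      rw [norm_smul]
      have h1 := hP1 n G
      have h2 : ‖(1 / 2 : ℂ)‖ = 1 / 2 := by norm_num
      rw [h2]
      nlinarith [norm_nonneg G, norm_nonneg (P n G)])
    (by
      intro n F G
      have h1 : (inner ℂ ((1 / 2 : ℂ) • P n F) G : ℂ) = conj (1 / 2 : ℂ) * inner ℂ (P n F) G :=
        ka_smul_left _ _ _
      have h2 : (inner ℂ F ((1 / 2 : ℂ) • P n G) : ℂ) = (1 / 2 : ℂ) * inner ℂ F (P n G) :=
        ka_smul_right _ _ _
      refine h1.trans (Eq.trans ?_ h2.symm)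
      rw [hP2 n F G, conj_half]
      congr 1
      push_cast
      rfl)
    (by
      intro n G
      show V ((1 / 2 : ℂ) • P n G) = (1 / 2 : ℂ) • P n (V G)
      rw [map_smul]
      congr 1
      apply Subtype.ext
      apply Lp.ext
      have hGi : Integrable ((G : Lp ℂ 2 (mm N)) : T N → ℂ) (mm N) :=
        (Lp.memLp _).integrable one_le_two
      have h1 := hCEC (T N) (mm N) (SS f) (SS f') (C n (l + 1)) _ hS ((hQT n).ia (l + 1)) hGi
      have h2 : (mm N)[fun x => ((G : Lp ℂ 2 (mm N)) : T N → ℂ) (SS f x)|C n (l + 1)] =ᵐ[mm N]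
          (mm N)[(((V G : Ka lev l a) : Lp ℂ 2 (mm N)) : T N → ℂ)|C n (l + 1)] :=
        condExp_congr_ae (by filter_upwards [hV G] with x hx; exact hx.symm)
      filter_upwards [h1, h2, hV (P n G), hP3 n (V G), ae_comp hS.mp (hP3 n G)]
        with x e1 e2 e3 e4 e5
      rw [e3, e4, e5, ← e2, e1])
    (by
      intro B
      have hev : ∀ᶠ n in atTop, ∀ i ∈ B, ∀ j ∈ B, i ≠ j →
          ∫ x, ‖((mm N)[ex (i.1 - j.1)|C n l]) x‖ ^ 2 ∂(mm N) ≤
            (1 / ((B.card : ℝ) + 1) ^ 2) ^ 2 := by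
        refine (Filter.eventually_all_finset B).2 fun i _ =>
          (Filter.eventually_all_finset B).2 fun j _ => ?_
        by_cases hij : i = j
        · exact Eventually.of_forall fun n h => absurd hij h
        have h1 : i.1 - j.1 ≠ 0 := fun h => hij (Subtype.ext (sub_eq_zero.1 h))
        have h2 : lb lev l (i.1 - j.1) := by
          intro k hk
          by_contra hlt
          apply hk
          have e1 : i.1 k = 0 := by
            by_contra h3
            exact hlt (i.2 k h3)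
          have e2 : j.1 k = 0 := by
            by_contra h3
            exact hlt (j.2 k h3)
          simp [e1, e2]
        obtain ⟨q₀, hq₀⟩ := small_ex hCHZ hALS hTR h1 h2
          (ε := (1 / ((B.card : ℝ) + 1) ^ 2) ^ 2) (by positivity)
        filter_upwards [eventually_ge_atTop q₀] with n hn _
        exact hq₀ (Q n) (hn.trans (hQ n)) (C n) (W n) (hQT n)
      filter_upwards [hev] with n hn
      have h1 := hs_bound hDNS hCHZ hALS ha B (hQT n) hn
      have h2 : ∀ i ∈ B, ‖P' n (e i)‖ ^ 2 =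
          1 / 4 * ∫ x, ‖((mm N)[ex (a + i.1)|C n (l + 1)]) x‖ ^ 2 ∂(mm N) := by
        intro i _
        rw [← hnorm n i.1 (e i) (he i)]
        show ‖(1 / 2 : ℂ) • P n (e i)‖ ^ 2 = _
        rw [norm_smul]
        have h2 : ‖(1 / 2 : ℂ)‖ = 1 / 2 := by norm_num
        rw [h2]
        ring
      rw [sum_congr rfl h2, ← mul_sum]
      linarith)
    (by
      intro n
      have h1 : (inner ℂ (P n g) g : ℂ) = ((‖P n g‖ ^ 2 : ℝ) : ℂ) := by
        rw [← hidem n g, hP2 n, hidem n]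
        exact ka_self _
      have h2 : RCLike.re (inner ℂ (P' n g) g : ℂ) = 1 / 2 * ‖P n g‖ ^ 2 := by
        have h3 : (inner ℂ ((1 / 2 : ℂ) • P n g) g : ℂ) = conj (1 / 2 : ℂ) * inner ℂ (P n g) g :=
          ka_smul_left _ _ _
        show RCLike.re (inner ℂ ((1 / 2 : ℂ) • P n g) g : ℂ) = _
        rw [h3, h1, conj_half, ← Complex.ofReal_mul]
        exact Complex.ofReal_re _
      rw [h2, hnorm n b g rfl]
      have := hm n
      linarith)
  refine no_eig hCHZ hALS hEG hl ha0 ha h c hh ?_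
  have h1 := hV h
  rw [hc] at h1
  have h2 := Lp.coeFn_smul c (h : Lp ℂ 2 (mm N))
  filter_upwards [h1, h2] with x e1 e2
  rw [← e1]
  exact e2

/-! ### density -/

/-- the operator of the conditional expectation -/
noncomputable def ceo {C : SA (T N)} (hC : Lm C) : Lp ℂ 2 (mm N) →L[ℂ] Lp ℂ 2 (mm N) :=
  (exists_ce_op (μ := mm N) hC).choose

theorem ceo_norm {C : SA (T N)} (hC : Lm C) (G : Lp ℂ 2 (mm N)) : ‖ceo hC G‖ ≤ ‖G‖ := by
  have h1 := (exists_ce_op (μ := mm N) hC).choose_spec.1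
  have h2 := (ceo hC).le_opNorm G
  have h3 : ‖ceo hC‖ ≤ 1 := h1
  nlinarith [norm_nonneg G]

theorem ceo_ae {C : SA (T N)} (hC : Lm C) (G : Lp ℂ 2 (mm N)) :
    (ceo hC G : T N → ℂ) =ᵐ[mm N] (mm N)[(G : T N → ℂ)|C] :=
  (exists_ce_op (μ := mm N) hC).choose_spec.2.2 G

theorem ceo_sq {C : SA (T N)} (hC : Lm C) {G : Lp ℂ 2 (mm N)} {F : T N → ℂ}
    (h : (G : T N → ℂ) =ᵐ[mm N] F) :
    ‖ceo hC G‖ ^ 2 = ∫ x, ‖((mm N)[F|C]) x‖ ^ 2 ∂(mm N) := by
  rw [nsq]
  refine integral_congr_ae ?_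
  filter_upwards [ceo_ae hC G, condExp_congr_ae (m := C) h] with x h1 h2
  rw [h1, h2]

/-- the functions whose masses tend to zero -/
def Dn (lev : Fin N → ℕ) (f f' : Fin N → T N → U) (l : ℕ) : Submodule ℂ (Lp ℂ 2 (mm N)) where
  carrier := {G | ∀ ε : ℝ, 0 < ε → ∃ q₀ : ℕ, ∀ q ≥ q₀, ∀ (C : ℕ → SA (T N))
    (W : ℕ → Set (T N → ℂ)) (h : QT lev f f' q C W), ‖ceo (h.ia l).1 G‖ ≤ ε}
  add_mem' {G G'} h h' := by
    intro ε hε
    obtain ⟨q₀, h1⟩ := h (ε / 2) (by linarith)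
    obtain ⟨q₁, h2⟩ := h' (ε / 2) (by linarith)
    refine ⟨max q₀ q₁, fun q hq C W hQ => ?_⟩
    have e1 := h1 q ((le_max_left _ _).trans hq) C W hQ
    have e2 := h2 q ((le_max_right _ _).trans hq) C W hQ
    rw [map_add]
    refine (norm_add_le _ _).trans ?_
    linarith
  zero_mem' := by
    intro ε hε
    refine ⟨0, fun q _ C W hQ => ?_⟩
    rw [map_zero, norm_zero]
    exact hε.le
  smul_mem' c G h := by
    intro ε hε
    obtain ⟨q₀, h1⟩ := h (ε / (‖c‖ + 1)) (by positivity)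
    refine ⟨q₀, fun q hq C W hQ => ?_⟩
    have e1 := h1 q hq C W hQ
    rw [map_smul, norm_smul]
    rw [le_div_iff₀ (by positivity)] at e1
    nlinarith [norm_nonneg c, norm_nonneg (ceo (hQ.ia l).1 G)]

theorem Dn_closed : IsClosed ((Dn lev f f' l : Submodule ℂ (Lp ℂ 2 (mm N))) :
    Set (Lp ℂ 2 (mm N))) := by
  refine IsSeqClosed.isClosed ?_
  intro G G' hG hl ε hε
  have h1 := (Metric.tendsto_atTop.1 hl) (ε / 2) (by linarith)
  obtain ⟨n, hn⟩ := h1
  obtain ⟨q₀, h2⟩ := hG n (ε / 2) (by linarith)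
  refine ⟨q₀, fun q hq C W hQ => ?_⟩
  have h3 := h2 q hq C W hQ
  have h4 := hn n le_rfl
  rw [dist_eq_norm] at h4
  have h5 : ceo (hQ.ia l).1 G' = ceo (hQ.ia l).1 (G n) - ceo (hQ.ia l).1 (G n - G') := by
    rw [map_sub]
    abel
  rw [h5]
  refine (norm_sub_le _ _).trans ?_
  have h6 := ceo_norm (hQ.ia l).1 (G n - G')
  linarith

/-- characters -/
theorem eb_Dn (hMPS : ST_MPS) (hIAL : ST_IAL) (hALS : ST_ALS) (hCHZ : ST_CHZ)
    (hDNS : ST_DNS) (hCEC : ST_CEC) (hEVC : Pool.Agent.Helper40.JZ.ST_EVC)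
    (hT : TI lev f f') (hEG : EG lev f 1) (hl : 1 ≤ l) (hTR : TR lev f f' l)
    {X : Fin N → ℤ} (hX : lb lev (l + 1) X) (hX0 : X ≠ 0) :
    eb N X ∈ Dn lev f f' (l + 1) := by
  intro ε hε
  have key : ∃ q₀ : ℕ, ∀ q ≥ q₀, ∀ (C : ℕ → SA (T N)) (W : ℕ → Set (T N → ℂ)),
      QT lev f f' q C W → ∫ x, ‖((mm N)[ex X|C (l + 1)]) x‖ ^ 2 ∂(mm N) ≤ ε ^ 2 := by
    let a : Fin N → ℤ := fun i => if lev i = l then X i else 0
    let b : Fin N → ℤ := fun i => if lev i = l then 0 else X i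
    have hab : X = a + b := by
      funext i
      simp only [a, b, Pi.add_apply]
      split_ifs <;> simp
    have ha : la lev l a := by
      intro i hi
      by_contra h
      exact hi (if_neg h)
    have hb : lb lev l b := by
      intro i hi
      have h1 : lev i ≠ l := by
        intro h
        exact hi (if_pos h)
      have h2 : X i ≠ 0 := by
        intro h
        apply hi
        simp [b, h]
      have := hX i h2
      omega
    by_cases ha0 : a = 0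
    · have hXb : X = b := by rw [hab, ha0, zero_add]
      obtain ⟨q₀, hq⟩ := small_ex hCHZ hALS hTR hX0 (by rw [hXb]; exact hb)
        (ε := ε ^ 2) (by positivity)
      refine ⟨q₀, fun q hq' C W hQ => ?_⟩
      refine le_trans (le_of_eq ?_) (hq q hq' C W hQ)
      have hsd := QT.sd hQ l
      have h0 : la lev l (0 : Fin N → ℤ) := fun i hi => absurd rfl hi
      have h1 := ce_step1 (F := ex X) hDNS hCHZ hALS hsd h0 hsd.grp.one
        (am_congr (am_const (μ := mm N) (𝒜 := AL lev l) 1)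
          (ae_of_all _ fun x => by simp [ex_zero]))
        ((eb_uf (uf_ex X)).integrable (meas_ex X).aestronglyMeasurable)
        (am_congr (am_ex (b := X) (by rw [hXb]; exact hb))
          (ae_of_all _ fun x => by simp [ex_zero]))
      rw [QT.eq hQ l]
      refine integral_congr_ae ?_
      filter_upwards [h1] with x hx
      rw [hx]
      simp
    · rw [hab]
      exact step_a hMPS hIAL hALS hCHZ hDNS hCEC hEVC hT hEG hl hTR ha ha0 hb (by positivity)
  obtain ⟨q₀, hq⟩ := key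
  refine ⟨q₀, fun q hq' C W hQ => ?_⟩
  have h1 := hq q hq' C W hQ
  rw [← ceo_sq (hQ.ia (l + 1)).1 (eb_ae X)] at h1
  exact (pow_le_pow_iff_left₀ (norm_nonneg _) hε.le two_ne_zero).1 h1

theorem st_TRS (hMPS : ST_MPS) (hIAL : ST_IAL) (hALS : ST_ALS) (hCHZ : ST_CHZ)
    (hDNS : ST_DNS) (hCEC : ST_CEC) (hEVC : Pool.Agent.Helper40.JZ.ST_EVC) : ST_TRS := by
  intro N lev f f' hT _ hEG l hl hTR G hG hGA hG0 ε hε
  have hmem : hG.toLp G ∈ Dn lev f f' (l + 1) := by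
    have h1 := (eb N).hasSum_repr (hG.toLp G)
    refine Dn_closed.mem_of_tendsto h1 (Eventually.of_forall fun s => ?_)
    refine Submodule.sum_mem _ fun X _ => ?_
    by_cases hX : lb lev (l + 1) X ∧ X ≠ 0
    · exact Submodule.smul_mem _ _
        (eb_Dn hMPS hIAL hALS hCHZ hDNS hCEC hEVC hT hEG hl hTR hX.1 hX.2)
    · have h2 : (eb N).repr (hG.toLp G) X = 0 := by
        rw [HilbertBasis.repr_apply_apply, inner_eb]
        have h3 : ∫ x, ex (-X) x * (hG.toLp G) x ∂(mm N) = ∫ x, ex (-X) x * G x ∂(mm N) := by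
          refine integral_congr_ae ?_
          filter_upwards [hG.coeFn_toLp] with x hx
          rw [hx]
        rw [h3]
        rw [not_and_or, not_not] at hX
        rcases hX with hX | hX
        · refine int_ex_zero hCHZ hALS (fun h => hX ?_) (hG.integrable one_le_two) hGA
          have := lb_neg h
          rwa [neg_neg] at this
        · rw [hX, neg_zero]
          rw [← hG0]
          refine integral_congr_ae (ae_of_all _ fun x => ?_)
          simp only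
          rw [ex_zero, one_mul]
      rw [h2, zero_smul]
      exact Submodule.zero_mem _
  obtain ⟨q₀, hq⟩ := hmem (√ε) (Real.sqrt_pos.2 hε)
  refine ⟨q₀, fun q hq' C W hQ => ?_⟩
  have h1 := hq q hq' C W hQ
  rw [← ceo_sq (hQ.ia (l + 1)).1 hG.coeFn_toLp]
  have h2 := Real.sq_sqrt hε.le
  nlinarith [norm_nonneg (ceo (hQ.ia (l + 1)).1 (hG.toLp G)), Real.sqrt_nonneg ε]

end Pool.Agent.Helper60.TWR
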