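import Pool.Agent.Helper29.TWR.CE

/-!
Row TRS of the sheet TW: general lemmas.
-/

set_option linter.unusedSectionVars false

open MeasureTheory Filter Topology Finset
open scoped ComplexConjugate

namespace Pool.Agent.Helper60.TWR

open Pool.Agent.Helper98.TW
open Pool.Agent.Helper29.TWR

variable {Ω : Type} [m0 : MeasurableSpace Ω] {μ : Measure Ω} [IsProbabilityMeasure μ]
  {C : SA Ω}

theorem ce_le_one {X : Ω → ℂ} (hC : Lm C) (hX : Integrable X μ) (h : ∀ᵐ x ∂μ, ‖X x‖ ≤ 1) :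
    ∀ᵐ x ∂μ, ‖(μ[X|C]) x‖ ≤ 1 := by
  have h1 := norm_condExp_le (m := C) (μ := μ) X
  have h2 : μ[(‖X ·‖) | C] ≤ᵐ[μ] μ[fun _ => (1 : ℝ)|C] :=
    condExp_mono hX.norm (integrable_const 1) h
  have h3 : μ[fun _ : Ω => (1 : ℝ)|C] = fun _ => 1 := condExp_const hC 1
  filter_upwards [h1, h2] with x hx1 hx2
  rw [h3] at hx2
  exact hx1.trans hx2

theorem mul_conj_norm (z : ℂ) : z * conj z = ((‖z‖ ^ 2 : ℝ) : ℂ) := by
  rw [Complex.mul_conj, Complex.normSq_eq_norm_sq]

theorem ofReal_int (h : Ω → ℝ) : ((∫ x, h x ∂μ : ℝ) : ℂ) = ∫ x, (h x : ℂ) ∂μ :=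
  integral_ofReal.symm

theorem re_sq (r : ℝ) : (((r : ℂ)) ^ 2).re = r ^ 2 := by
  rw [← Complex.ofReal_pow, Complex.ofReal_re]

/-- the sum of the masses of almost orthogonal unimodular functions over one class -/
theorem trace_bound (hC : Lm C) {ψ : Ω → ℂ} (hψ : UF μ ψ) {ι : Type} [DecidableEq ι]
    (B : Finset ι) (G : ι → Ω → ℂ) (hG : ∀ i, UF μ (G i))
    (hη : ∑ i ∈ B, ∑ j ∈ B.erase i, ∫ x, ‖(μ[fun x => G i x * conj (G j x)|C]) x‖ ∂μ ≤ 1) :
    ∑ i ∈ B, ∫ x, ‖(μ[fun x => G i x * conj (ψ x)|C]) x‖ ^ 2 ∂μ ≤ 2 := by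
  set c : ι → Ω → ℂ := fun i => μ[fun x => G i x * conj (ψ x)|C] with hc
  have hGψ : ∀ i, UF μ (fun x => G i x * conj (ψ x)) := fun i => (hG i).mul hψ.conj
  have hint : ∀ {f : Ω → ℂ}, AEStronglyMeasurable f μ → EB μ f → Integrable f μ :=
    fun hm hb => hb.integrable hm
  have hGψi : ∀ i, Integrable (fun x => G i x * conj (ψ x)) μ := fun i =>
    hint (hGψ i).1.aestronglyMeasurable (eb_uf (hGψ i))
  have hcA : ∀ i, AM μ C (c i) := fun i => am_ce
  have hcm : ∀ i, AEStronglyMeasurable (c i) μ := fun i => aesm hC (hcA i)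
  have hc1 : ∀ i, ∀ᵐ x ∂μ, ‖c i x‖ ≤ 1 := fun i =>
    ce_le_one hC (hGψi i) (by filter_upwards [(hGψ i).2] with x hx; exact hx.le)
  have hcb : ∀ i, EB μ (c i) := fun i => ⟨1, hc1 i⟩
  have hGb : ∀ i, EB μ (G i) := fun i => eb_uf (hG i)
  have hGm : ∀ i, AEStronglyMeasurable (G i) μ := fun i => (hG i).1.aestronglyMeasurable
  have hcj : ∀ {f : Ω → ℂ}, AEStronglyMeasurable f μ →
      AEStronglyMeasurable (fun x => conj (f x)) μ := fun h =>
    Complex.continuous_conj.comp_aestronglyMeasurable h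
  -- the sums
  let sR : Ω → ℝ := fun x => ∑ i ∈ B, ‖c i x‖ ^ 2
  let s : Ω → ℂ := fun x => ∑ i ∈ B, c i x * conj (c i x)
  let K : Ω → ℂ := fun x => ∑ i ∈ B, conj (c i x) * G i x
  have hs : ∀ x, s x = (sR x : ℂ) := by
    intro x
    simp only [s, sR, Complex.ofReal_sum]
    exact sum_congr rfl fun i _ => mul_conj_norm _
  have hsA : AM μ C s := am_finset_sum _ fun i _ => am_mul (hcA i) (am_conj (hcA i))
  have hsm : AEStronglyMeasurable s μ := aesm hC hsA
  have hKm : AEStronglyMeasurable K μ :=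
    Finset.aestronglyMeasurable_fun_sum _ fun i _ => (hcj (hcm i)).mul (hGm i)
  have hall : ∀ᵐ x ∂μ, ∀ i ∈ B, ‖c i x‖ ≤ 1 :=
    (Filter.eventually_all_finset B).2 fun i _ => hc1 i
  have hsb : EB μ s := by
    refine ⟨B.card, ?_⟩
    filter_upwards [hall] with x hx
    refine (norm_sum_le _ _).trans ?_
    have : ∀ i ∈ B, ‖c i x * conj (c i x)‖ ≤ 1 := by
      intro i hi
      rw [norm_mul, RCLike.norm_conj]
      have := hx i hi
      nlinarith [norm_nonneg (c i x)]
    refine (sum_le_sum this).trans ?_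
    simp
  have hKb : EB μ K := by
    refine ⟨B.card, ?_⟩
    have hallG : ∀ᵐ x ∂μ, ∀ i ∈ B, ‖G i x‖ = 1 :=
      (Filter.eventually_all_finset B).2 fun i _ => (hG i).2
    filter_upwards [hall, hallG] with x hx hx2
    refine (norm_sum_le _ _).trans ?_
    have : ∀ i ∈ B, ‖conj (c i x) * G i x‖ ≤ 1 := by
      intro i hi
      rw [norm_mul, RCLike.norm_conj, hx2 i hi, mul_one]
      exact hx i hi
    refine (sum_le_sum this).trans ?_
    simp
  have hsRi : Integrable sR μ := by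
    have := (hint hsm hsb).re
    refine this.congr (Eventually.of_forall fun x => ?_)
    simp only [hs]
    simp
  -- step 1
  have h1 : ∫ x, s x * s x ∂μ = ∫ x, s x * conj (ψ x) * K x ∂μ := by
    have e1 : ∀ i, ∫ x, (s x * conj (c i x)) * c i x ∂μ =
        ∫ x, (s x * conj (c i x)) * (G i x * conj (ψ x)) ∂μ := by
      intro i
      exact int_ce_eb hC (am_mul hsA (am_conj (hcA i))) (hsb.mul (hcb i).conj) (hGψi i)
    have i1 : ∀ i ∈ B, Integrable (fun x => (s x * conj (c i x)) * c i x) μ := fun i _ =>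
      hint ((hsm.mul (hcj (hcm i))).mul (hcm i)) ((hsb.mul (hcb i).conj).mul (hcb i))
    have i2 : ∀ i ∈ B, Integrable (fun x => (s x * conj (c i x)) * (G i x * conj (ψ x))) μ :=
      fun i _ => hint ((hsm.mul (hcj (hcm i))).mul (hGψ i).1.aestronglyMeasurable)
        ((hsb.mul (hcb i).conj).mul (eb_uf (hGψ i)))
    calc ∫ x, s x * s x ∂μ = ∫ x, ∑ i ∈ B, (s x * conj (c i x)) * c i x ∂μ := by
          refine integral_congr_ae (Eventually.of_forall fun x => ?_)
          show s x * (∑ i ∈ B, c i x * conj (c i x)) = _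
          rw [mul_sum]
          exact sum_congr rfl fun i _ => by ring
      _ = ∑ i ∈ B, ∫ x, (s x * conj (c i x)) * (G i x * conj (ψ x)) ∂μ := by
          rw [integral_finsetSum _ i1]
          exact sum_congr rfl fun i _ => e1 i
      _ = ∫ x, s x * conj (ψ x) * K x ∂μ := by
          rw [← integral_finsetSum _ i2]
          refine integral_congr_ae (Eventually.of_forall fun x => ?_)
          show _ = s x * conj (ψ x) * (∑ i ∈ B, conj (c i x) * G i x)
          rw [mul_sum]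
          exact sum_congr rfl fun i _ => by ring
  -- step 2
  have hs2i : Integrable (fun x => sR x ^ 2) μ := by
    have := (hint (hsm.mul hsm) (hsb.mul hsb)).re
    refine this.congr (Eventually.of_forall fun x => ?_)
    simp only [Pi.mul_apply, hs]
    rw [← Complex.ofReal_mul]
    simp [sq]
  have hK2i : Integrable (fun x => ‖K x‖ ^ 2) μ := by
    have := (hint (hKm.mul (hcj hKm)) (hKb.mul hKb.conj)).re
    refine this.congr (Eventually.of_forall fun x => ?_)
    simp only [Pi.mul_apply]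
    rw [mul_conj_norm]
    simp [re_sq]
  have h2 : ∫ x, sR x ^ 2 ∂μ ≤ ∫ x, ‖K x‖ ^ 2 ∂μ := by
    have e1 : ∫ x, sR x ^ 2 ∂μ = (∫ x, s x * conj (ψ x) * K x ∂μ).re := by
      rw [← h1]
      have : (∫ x, s x * s x ∂μ) = ((∫ x, sR x ^ 2 ∂μ : ℝ) : ℂ) := by
        rw [ofReal_int]
        refine integral_congr_ae (Eventually.of_forall fun x => ?_)
        simp only [hs]
        push_cast
        ring
      rw [this, Complex.ofReal_re]
    have e2 : (∫ x, s x * conj (ψ x) * K x ∂μ).re ≤ ∫ x, (sR x ^ 2 + ‖K x‖ ^ 2) / 2 ∂μ := by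
      refine (Complex.re_le_norm _).trans ((norm_integral_le_integral_norm _).trans ?_)
      refine integral_mono_ae ?_ ((hs2i.add hK2i).div_const 2) ?_
      · exact (hint ((hsm.mul (hcj hψ.1.aestronglyMeasurable)).mul hKm)
          ((hsb.mul (eb_uf hψ).conj).mul hKb)).norm
      · filter_upwards [hψ.2] with x hx
        simp only [norm_mul, RCLike.norm_conj, hx, mul_one, hs, Complex.norm_real,
          Real.norm_eq_abs]
        have h3 : 0 ≤ sR x := sum_nonneg fun i _ => sq_nonneg _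
        rw [abs_of_nonneg h3]
        nlinarith [sq_nonneg (sR x - ‖K x‖)]
    have e3 : ∫ x, (sR x ^ 2 + ‖K x‖ ^ 2) / 2 ∂μ =
        (∫ x, sR x ^ 2 ∂μ + ∫ x, ‖K x‖ ^ 2 ∂μ) / 2 := by
      rw [integral_div, integral_add hs2i hK2i]
    linarith
  -- step 3
  have h3 : ∫ x, ‖K x‖ ^ 2 ∂μ ≤ ∫ x, sR x ∂μ + 1 := by
    have i1 : ∀ i j, Integrable (fun x => (conj (c i x) * c j x) * (G i x * conj (G j x))) μ :=
      fun i j => hint (((hcj (hcm i)).mul (hcm j)).mul ((hGm i).mul (hcj (hGm j))))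
        (((hcb i).conj.mul (hcb j)).mul ((hGb i).mul (hGb j).conj))
    have e1 : ((∫ x, ‖K x‖ ^ 2 ∂μ : ℝ) : ℂ) =
        ∑ i ∈ B, ∑ j ∈ B, ∫ x, (conj (c i x) * c j x) * (G i x * conj (G j x)) ∂μ := by
      rw [ofReal_int]
      have : ∀ x, ((‖K x‖ ^ 2 : ℝ) : ℂ) =
          ∑ i ∈ B, ∑ j ∈ B, (conj (c i x) * c j x) * (G i x * conj (G j x)) := by
        intro x
        rw [← mul_conj_norm]
        show (∑ i ∈ B, conj (c i x) * G i x) * conj (∑ j ∈ B, conj (c j x) * G j x) = _
        rw [map_sum, sum_mul]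
        refine sum_congr rfl fun i _ => ?_
        rw [mul_sum]
        refine sum_congr rfl fun j _ => ?_
        rw [map_mul, Complex.conj_conj]
        ring
      rw [integral_congr_ae (Eventually.of_forall this),
        integral_finsetSum _ fun i _ => integrable_finsetSum _ fun j _ => i1 i j]
      exact sum_congr rfl fun i _ => integral_finsetSum _ fun j _ => i1 i j
    have e2 : ∀ i ∈ B, ∑ j ∈ B, ∫ x, (conj (c i x) * c j x) * (G i x * conj (G j x)) ∂μ =
        ((∫ x, ‖c i x‖ ^ 2 ∂μ : ℝ) : ℂ) +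
          ∑ j ∈ B.erase i, ∫ x, (conj (c i x) * c j x) * (G i x * conj (G j x)) ∂μ := by
      intro i hi
      rw [← add_sum_erase B _ hi]
      congr 1
      rw [ofReal_int]
      refine integral_congr_ae ?_
      filter_upwards [(hG i).mul_conj] with x hx
      rw [hx, mul_one, mul_comm, mul_conj_norm]
    have e3 : ∀ i j, ‖∫ x, (conj (c i x) * c j x) * (G i x * conj (G j x)) ∂μ‖ ≤
        ∫ x, ‖(μ[fun x => G i x * conj (G j x)|C]) x‖ ∂μ := by
      intro i j
      have hGG : Integrable (fun x => G i x * conj (G j x)) μ :=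
        hint ((hGm i).mul (hcj (hGm j))) ((hGb i).mul (hGb j).conj)
      rw [← int_ce_eb hC (am_mul (am_conj (hcA i)) (hcA j)) ((hcb i).conj.mul (hcb j)) hGG]
      refine (norm_integral_le_integral_norm _).trans ?_
      refine integral_mono_ae ?_ integrable_condExp.norm ?_
      · have := (((hcb i).conj.mul (hcb j)).integrable_mul ((hcj (hcm i)).mul (hcm j))
          (integrable_condExp (μ := μ) (m := C) (f := fun x => G i x * conj (G j x)))).norm
        exact this
      · filter_upwards [hc1 i, hc1 j] with x hx hx2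
        simp only [norm_mul, RCLike.norm_conj]
        have h4 := norm_nonneg ((μ[fun x => G i x * conj (G j x)|C]) x)
        have h5 : ‖c i x‖ * ‖c j x‖ ≤ 1 := by
          nlinarith [norm_nonneg (c i x), norm_nonneg (c j x)]
        nlinarith [mul_nonneg (norm_nonneg (c i x)) (norm_nonneg (c j x))]
    have e4 : ∫ x, sR x ∂μ = ∑ i ∈ B, ∫ x, ‖c i x‖ ^ 2 ∂μ := by
      refine integral_finsetSum _ fun i _ => ?_
      have := (hint ((hcm i).mul (hcj (hcm i))) ((hcb i).mul (hcb i).conj)).re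
      refine this.congr (Eventually.of_forall fun x => ?_)
      simp only [Pi.mul_apply]
      rw [mul_conj_norm]
      simp [re_sq]
    have e5 : ((∫ x, ‖K x‖ ^ 2 ∂μ : ℝ) : ℂ) = ((∫ x, sR x ∂μ : ℝ) : ℂ) +
        ∑ i ∈ B, ∑ j ∈ B.erase i, ∫ x, (conj (c i x) * c j x) * (G i x * conj (G j x)) ∂μ := by
      rw [e1, sum_congr rfl e2, sum_add_distrib, e4]
      push_cast
      rfl
    have e6 := congrArg Complex.re e5
    rw [Complex.add_re, Complex.ofReal_re, Complex.ofReal_re] at e6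
    rw [e6]
    have e7 : (∑ i ∈ B, ∑ j ∈ B.erase i,
        ∫ x, (conj (c i x) * c j x) * (G i x * conj (G j x)) ∂μ).re ≤ 1 := by
      refine (Complex.re_le_norm _).trans (le_trans ?_ hη)
      refine (norm_sum_le _ _).trans (sum_le_sum fun i _ => ?_)
      exact (norm_sum_le _ _).trans (sum_le_sum fun j _ => e3 i j)
    linarith
  -- step 4
  have e4 : ∫ x, sR x ∂μ = ∑ i ∈ B, ∫ x, ‖c i x‖ ^ 2 ∂μ := by
    refine integral_finsetSum _ fun i _ => ?_
    have := (hint ((hcm i).mul (hcj (hcm i))) ((hcb i).mul (hcb i).conj)).re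
    refine this.congr (Eventually.of_forall fun x => ?_)
    simp only [Pi.mul_apply]
    rw [mul_conj_norm]
    simp [re_sq]
  rw [← e4]
  have h5 : (∫ x, sR x ∂μ) ^ 2 ≤ ∫ x, sR x ^ 2 ∂μ := by
    set t := ∫ x, sR x ∂μ with ht
    have h6 : 0 ≤ ∫ x, (sR x - t) ^ 2 ∂μ := integral_nonneg fun x => sq_nonneg _
    have h7 : ∫ x, (sR x - t) ^ 2 ∂μ = ∫ x, sR x ^ 2 ∂μ - t ^ 2 := by
      have h8 : ∀ x, (sR x - t) ^ 2 = sR x ^ 2 - (2 * t * sR x - t ^ 2) := fun x => by ring
      have h9 : Integrable (fun x => 2 * t * sR x - t ^ 2) μ :=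
        (hsRi.const_mul _).sub (integrable_const _)
      have h10 : ∫ x, (2 * t * sR x - t ^ 2) ∂μ = 2 * t * t - t ^ 2 := by
        rw [integral_sub (hsRi.const_mul _) (integrable_const _), integral_const_mul, ← ht]
        simp
      rw [integral_congr_ae (Eventually.of_forall h8), integral_sub hs2i h9, h10]
      ring
    linarith
  have h0 : 0 ≤ ∫ x, sR x ∂μ := integral_nonneg fun x => sum_nonneg fun i _ => sq_nonneg _
  nlinarith

end Pool.Agent.Helper60.TWR
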