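import Pool.Agent.Helper60.TWR.TRSa
import Pool.Agent.Helper13.TWR.POW

/-!
Row TRS of the sheet TW: conditional expectations for one step, characters.
-/

set_option linter.unusedSectionVars false

open MeasureTheory Filter Topology Finset
open scoped ComplexConjugate

namespace Pool.Agent.Helper60.TWR

open Pool.Agent.Helper98.TW
open Pool.Agent.Helper29.TWR
open Pool.Agent.Helper16.AZ (T mm)
open Pool.Agent.Helper13.TWR (ex_eq norm_ex ex_mul_conj meas_ex uf_ex am_tr inc_ex ex_not_am)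

section gen

variable {Ω : Type} [m0 : MeasurableSpace Ω] {μ : Measure Ω} [IsProbabilityMeasure μ]
  {C : SA Ω}

theorem nsq (F : Lp ℂ 2 μ) : ‖F‖ ^ 2 = ∫ x, ‖(F : Ω → ℂ) x‖ ^ 2 ∂μ := by
  have h1 : (inner ℂ F F : ℂ) = ((‖F‖ ^ 2 : ℝ) : ℂ) := by
    rw [inner_self_eq_norm_sq_to_K]
    push_cast
    rfl
  rw [L2.inner_def] at h1
  have h2 : ∫ x, (inner ℂ ((F : Ω → ℂ) x) ((F : Ω → ℂ) x) : ℂ) ∂μ =
      ((∫ x, ‖(F : Ω → ℂ) x‖ ^ 2 ∂μ : ℝ) : ℂ) := by
    rw [ofReal_int]
    refine integral_congr_ae (ae_of_all _ fun x => ?_)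
    simp only
    rw [inner_self_eq_norm_sq_to_K]
    push_cast
    rfl
  rw [h2] at h1
  exact_mod_cast h1.symm

/-- the conditional expectation as an operator -/
theorem exists_ce_op (hC : Lm C) : ∃ P : Lp ℂ 2 μ →L[ℂ] Lp ℂ 2 μ, ‖P‖ ≤ 1 ∧
    (∀ F G : Lp ℂ 2 μ, (inner ℂ (P F) G : ℂ) = inner ℂ F (P G)) ∧
    ∀ F : Lp ℂ 2 μ, (P F : Ω → ℂ) =ᵐ[μ] μ[(F : Ω → ℂ)|C] := by
  have hle : @LE.le (MeasurableSpace Ω) _ C m0 := hC
  have : IsFiniteMeasure (μ.trim hle) := isFiniteMeasure_trim hle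
  have : SigmaFinite (μ.trim hle) := IsFiniteMeasure.toSigmaFinite _
  let P : Lp ℂ 2 μ →L[ℂ] Lp ℂ 2 μ := (lpMeas ℂ ℂ C 2 μ).subtypeL ∘L condExpL2 ℂ ℂ hle
  have hP : ∀ F, P F = ((condExpL2 ℂ ℂ hle F : lpMeas ℂ ℂ C 2 μ) : Lp ℂ 2 μ) := fun F => rfl
  refine ⟨P, ?_, fun F G => ?_, fun F => ?_⟩
  · refine ContinuousLinearMap.opNorm_le_bound _ zero_le_one fun F => ?_
    rw [one_mul]
    exact norm_condExpL2_coe_le hle F
  · exact inner_condExpL2_left_eq_right hle
  · have h1 := MemLp.condExpL2_ae_eq_condExp' (𝕜 := ℂ) (E := ℂ) hle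
      ((Lp.memLp F).integrable one_le_two) (Lp.memLp F)
    rw [Lp.toLp_coeFn] at h1
    exact h1

theorem lim_am {𝒜 : SA Ω} {h : Ω → ℂ} {G : ℕ → Lp ℂ 2 μ}
    {G' : Lp ℂ 2 μ} (hG : ∀ n, AM μ 𝒜 (fun x => h x * G n x))
    (hl : Tendsto G atTop (𝓝 G')) : AM μ 𝒜 (fun x => h x * G' x) := by
  have h1 : TendstoInMeasure μ (fun n => (G n : Ω → ℂ)) atTop (G' : Ω → ℂ) :=
    tendstoInMeasure_of_tendsto_Lp hl
  obtain ⟨ns, -, hns⟩ := h1.exists_seq_tendsto_ae
  refine am_of_tendsto (F := fun n x => h x * G (ns n) x) (fun n => hG (ns n)) ?_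
  filter_upwards [hns] with x hx
  exact hx.const_mul (h x)

end gen

section torus

variable {N : ℕ} {lev : Fin N → ℕ} {f f' : Fin N → T N → U} {l : ℕ}

theorem ex_add (a b : Fin N → ℤ) (x : T N) : ex (a + b) x = ex a x * ex b x := by
  rw [ex_eq, ex_eq, ex_eq, ← prod_mul_distrib]
  refine prod_congr rfl fun i _ => ?_
  rw [Pi.add_apply, fourier_add]

theorem ex_neg (a : Fin N → ℤ) (x : T N) : ex (-a) x = conj (ex a x) := by
  rw [ex_eq, ex_eq, map_prod]
  refine prod_congr rfl fun i _ => ?_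
  rw [Pi.neg_apply, fourier_neg]

theorem ex_zero (x : T N) : ex (0 : Fin N → ℤ) x = 1 := by
  rw [ex_eq]
  simp

theorem ex_conj_mul (a : Fin N → ℤ) (x : T N) : conj (ex a x) * ex a x = 1 := by
  rw [mul_comm]
  exact ex_mul_conj a x

/-- characters of the levels `< l` are measurable -/
theorem am_ex {b : Fin N → ℤ} (hb : lb lev l b) : AM (mm N) (AL lev l) (ex b) := by
  refine am_tr (meas_ex b) fun x => ?_
  rw [ex_eq, ex_eq]
  refine prod_congr rfl fun i _ => ?_
  by_cases h0 : b i = 0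
  · simp [h0]
  · have : tr lev l x i = x i := by
      unfold tr
      rw [if_pos (hb i h0)]
    rw [this]

/-- Fourier coefficients of functions of the levels `< l` -/
theorem int_ex_zero (hCHZ : ST_CHZ) (hALS : ST_ALS) {c : Fin N → ℤ} (hc : ¬ lb lev l c)
    {u : T N → ℂ} (hu : Integrable u (mm N)) (hum : AM (mm N) (AL lev l) u) :
    ∫ x, ex c x * u x ∂(mm N) = 0 := by
  obtain ⟨-, -, hAl, hAq, -, -, -⟩ := hALS N lev
  -- the top level
  unfold lb at hc
  push Not at hc
  obtain ⟨i0, hi0, hl0⟩ := hc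
  obtain ⟨i1, hi1, hmax⟩ := Finset.exists_max_image (univ.filter fun i => c i ≠ 0) lev
    ⟨i0, by simp [hi0]⟩
  simp only [mem_filter, mem_univ, true_and] at hi1 hmax
  set L := lev i1 with hL
  have hlL : l ≤ L := hl0.trans (hmax i0 hi0)
  let c1 : Fin N → ℤ := fun i => if lev i = L then c i else 0
  let c2 : Fin N → ℤ := fun i => if lev i = L then 0 else c i
  have hc12 : c = c1 + c2 := by
    funext i
    simp only [c1, c2, Pi.add_apply]
    split_ifs <;> simp
  have hc1 : la lev L c1 := by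
    intro i hi
    by_contra h
    exact hi (if_neg h)
  have hc10 : c1 ≠ 0 := by
    intro h
    have := congrFun h i1
    simp only [c1, Pi.zero_apply] at this
    rw [if_pos hL.symm] at this
    exact hi1 this
  have hc2 : lb lev L c2 := by
    intro i hi
    have h1 : lev i ≠ L := by
      intro h
      exact hi (if_pos h)
    have h2 : c i ≠ 0 := by
      intro h
      apply hi
      simp [c2, h]
    exact lt_of_le_of_ne (hmax i h2) h1
  have h1 : Integrable (fun x => ex c2 x * u x) (mm N) :=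
    (eb_uf (uf_ex c2)).integrable_mul (meas_ex c2).aestronglyMeasurable hu
  have h2 := hCHZ N lev L c1 hc10 hc1 (fun x => ex c2 x * u x) h1
    (am_mul (am_ex hc2) (hAq l L hlL u hum))
  have hle : @LE.le (MeasurableSpace (T N)) _ (AL lev L) inferInstance := hAl L
  have : IsFiniteMeasure ((mm N).trim hle) := isFiniteMeasure_trim hle
  have : SigmaFinite ((mm N).trim hle) := IsFiniteMeasure.toSigmaFinite _
  have h3 : ∫ x, ex c x * u x ∂(mm N) =
      ∫ x, ((mm N)[fun x => ex c1 x * (ex c2 x * u x)|AL lev L]) x ∂(mm N) := by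
    rw [integral_condExp hle]
    refine integral_congr_ae (ae_of_all _ fun x => ?_)
    simp only
    rw [hc12, ex_add]
    ring
  rw [h3, integral_congr_ae h2]
  simp

/-- the data of one step -/
structure Sd (lev : Fin N → ℕ) (l : ℕ) (C : SA (T N)) (W : Set (T N → ℂ)) : Prop where
  lm : Lm C
  le : LQ (mm N) C (AL lev l)
  grp : Grp (mm N) W
  hom : ∀ ψ ∈ W, ∃ a, la lev l a ∧ AM (mm N) (AL lev l) (fun x => conj (ex a x) * ψ x)
  ch0 : ∀ ψ ∈ W, AM (mm N) (AL lev l) ψ → AM (mm N) C ψ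

variable {C : SA (T N)} {W : Set (T N → ℂ)} {a b : Fin N → ℤ} {F ψ : T N → ℂ}

theorem orth (hCHZ : ST_CHZ) (hALS : ST_ALS) (h : Sd lev l C W) (ha : la lev l a)
    (hb : la lev l b) (hab : a ≠ b) (hF : Integrable F (mm N))
    (hFa : AM (mm N) (AL lev l) (fun x => conj (ex a x) * F x)) (hψ : UF (mm N) ψ)
    (hψb : AM (mm N) (AL lev l) (fun x => conj (ex b x) * ψ x)) :
    (mm N)[fun x => F x * conj (ψ x)|C] =ᵐ[mm N] 0 := by
  obtain ⟨-, -, hAl, -, -, -, -⟩ := hALS N lev
  have hFψ : Integrable (fun x => F x * conj (ψ x)) (mm N) := by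
    have := (eb_uf hψ.conj).integrable_mul hψ.conj.1.aestronglyMeasurable hF
    exact this.congr (ae_of_all _ fun x => mul_comm _ _)
  refine ce_zero_lq (hAl l) h.lm h.le hFψ ?_
  let u : T N → ℂ := fun x => (conj (ex a x) * F x) * conj (conj (ex b x) * ψ x)
  have hu : AM (mm N) (AL lev l) u := am_mul hFa (am_conj hψb)
  have hui : Integrable u (mm N) := by
    have h1 : UF (mm N) (fun x => conj (ex a x) * ex b x) := (uf_ex a).conj.mul (uf_ex b)
    have h2 := (eb_uf h1).integrable_mul h1.1.aestronglyMeasurable hFψ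
    refine h2.congr (ae_of_all _ fun x => ?_)
    simp only [u, map_mul, Complex.conj_conj]
    ring
  have h1 := hCHZ N lev l (a - b) (sub_ne_zero.2 hab) ?_ u hui hu
  · refine Filter.EventuallyEq.trans (condExp_congr_ae (ae_of_all _ fun x => ?_)) h1
    simp only [u, map_mul, Complex.conj_conj]
    rw [sub_eq_add_neg, ex_add, ex_neg]
    linear_combination (-(F x * conj (ψ x) * (ex b x * conj (ex b x)))) * ex_mul_conj a x -
      (F x * conj (ψ x)) * ex_mul_conj b x
  · intro i hi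
    by_contra hne
    apply hi
    have e1 : a i = 0 := by
      by_contra h2
      exact hne (ha i h2)
    have e2 : b i = 0 := by
      by_contra h2
      exact hne (hb i h2)
    simp [e1, e2]

theorem ce_step0 (hDNS : ST_DNS) (hCHZ : ST_CHZ) (hALS : ST_ALS) (h : Sd lev l C W)
    (ha : la lev l a)
    (hno : ¬ ∃ ψ ∈ W, AM (mm N) (AL lev l) (fun x => conj (ex a x) * ψ x))
    (hF : Integrable F (mm N))
    (hFa : AM (mm N) (AL lev l) (fun x => conj (ex a x) * F x)) :
    (mm N)[F|jo C (sg W)] =ᵐ[mm N] 0 := by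
  refine ce_jo_zero hDNS h.lm h.grp hF fun φ hφ => ?_
  obtain ⟨b, hb, hφb⟩ := h.hom φ hφ
  refine orth hCHZ hALS h ha hb ?_ hF hFa (h.grp.uf φ hφ) hφb
  rintro rfl
  exact hno ⟨φ, hφ, hφb⟩

theorem ce_step1 (hDNS : ST_DNS) (hCHZ : ST_CHZ) (hALS : ST_ALS) (h : Sd lev l C W)
    (ha : la lev l a) (hψW : ψ ∈ W)
    (hψa : AM (mm N) (AL lev l) (fun x => conj (ex a x) * ψ x))
    (hF : Integrable F (mm N))
    (hFa : AM (mm N) (AL lev l) (fun x => conj (ex a x) * F x)) :
    (mm N)[F|jo C (sg W)] =ᵐ[mm N]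
      fun x => ψ x * ((mm N)[fun x => F x * conj (ψ x)|C]) x := by
  have hψ : UF (mm N) ψ := h.grp.uf ψ hψW
  have hJ : Lm (jo C (sg W)) := lm_jo h.lm (lm_sg fun φ hφ => (h.grp.uf φ hφ).1)
  set c : T N → ℂ := (mm N)[fun x => F x * conj (ψ x)|C] with hc
  have hcA : AM (mm N) C c := am_ce
  have hci : Integrable c (mm N) := integrable_condExp
  let H : T N → ℂ := fun x => ψ x * c x
  have hHi : Integrable H (mm N) :=
    (eb_uf hψ).integrable_mul hψ.1.aestronglyMeasurable hci
  have hHA : AM (mm N) (jo C (sg W)) H := am_mul (am_jo_right (am_sg hψW)) (am_jo_left hcA)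
  have hHa : AM (mm N) (AL lev l) (fun x => conj (ex a x) * H x) := by
    refine am_congr (am_mul hψa (h.le c hcA)) (ae_of_all _ fun x => ?_)
    simp only [H]
    ring
  have key : (mm N)[fun x => F x - H x|jo C (sg W)] =ᵐ[mm N] 0 := by
    refine ce_jo_zero hDNS h.lm h.grp (hF.sub hHi) fun φ hφ => ?_
    have hφu : UF (mm N) φ := h.grp.uf φ hφ
    have i1 : Integrable (fun x => F x * conj (φ x)) (mm N) := by
      have := (eb_uf hφu.conj).integrable_mul hφu.conj.1.aestronglyMeasurable hF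
      exact this.congr (ae_of_all _ fun x => mul_comm _ _)
    have i2 : Integrable (fun x => H x * conj (φ x)) (mm N) := by
      have := (eb_uf hφu.conj).integrable_mul hφu.conj.1.aestronglyMeasurable hHi
      exact this.congr (ae_of_all _ fun x => mul_comm _ _)
    have h0 : (mm N)[fun x => (F x - H x) * conj (φ x)|C] =ᵐ[mm N]
        fun x => ((mm N)[fun x => F x * conj (φ x)|C]) x -
          ((mm N)[fun x => H x * conj (φ x)|C]) x := by
      refine Filter.EventuallyEq.trans (condExp_congr_ae (ae_of_all _ fun x => ?_))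
        (ce_sub i1 i2)
      simp only
      ring
    obtain ⟨b, hb, hφb⟩ := h.hom φ hφ
    by_cases hab : a = b
    · subst hab
      -- the same class
      let d : T N → ℂ := fun x => ψ x * conj (φ x)
      have hdW : d ∈ W := h.grp.mul ψ hψW _ (h.grp.inv φ hφ)
      have hdu : UF (mm N) d := h.grp.uf d hdW
      have hdA : AM (mm N) C d := by
        refine h.ch0 d hdW ?_
        refine am_congr (am_mul hψa (am_conj hφb)) (ae_of_all _ fun x => ?_)
        simp only [d, map_mul, Complex.conj_conj]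
        linear_combination (ψ x * conj (φ x)) * ex_mul_conj a x
      have hFψi : Integrable (fun x => F x * conj (ψ x)) (mm N) := by
        have := (eb_uf hψ.conj).integrable_mul hψ.conj.1.aestronglyMeasurable hF
        exact this.congr (ae_of_all _ fun x => mul_comm _ _)
      have e1 : (mm N)[fun x => F x * conj (φ x)|C] =ᵐ[mm N] fun x => d x * c x := by
        have h1 : (fun x => F x * conj (φ x)) =ᵐ[mm N] fun x => d x * (F x * conj (ψ x)) := by
          filter_upwards [hψ.mul_conj] with x hx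
          simp only [d]
          linear_combination (-(F x * conj (φ x))) * hx
        refine (condExp_congr_ae h1).trans ?_
        exact ce_pull hdA ((eb_uf hdu).integrable_mul hdu.1.aestronglyMeasurable hFψi) hFψi
      have e2 : (mm N)[fun x => H x * conj (φ x)|C] =ᵐ[mm N] fun x => d x * c x := by
        have h1 : (fun x => H x * conj (φ x)) =ᵐ[mm N] fun x => d x * c x :=
          ae_of_all _ fun x => by simp only [d, H]; ring
        refine (condExp_congr_ae h1).trans ?_
        exact ce_of_am h.lm ((eb_uf hdu).integrable_mul hdu.1.aestronglyMeasurable hci)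
          (am_mul hdA hcA)
      filter_upwards [h0, e1, e2] with x h1 h2 h3
      rw [h1, h2, h3]
      simp
    · have e1 := orth hCHZ hALS h ha hb hab hF hFa hφu hφb
      have e2 := orth hCHZ hALS h ha hb hab hHi hHa hφu hφb
      filter_upwards [h0, e1, e2] with x h1 h2 h3
      rw [h1, h2, h3]
      simp
  have h1 := ce_sub (μ := mm N) (𝒜 := jo C (sg W)) hF hHi
  have h2 := ce_of_am hJ hHi hHA
  filter_upwards [key, h1, h2] with x h3 h4 h5
  rw [h4, h5] at h3
  have : ((mm N)[F|jo C (sg W)]) x - H x = 0 := h3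
  exact sub_eq_zero.1 this

/-- the homogeneous functions of one character are stable -/
theorem ce_hom (hDNS : ST_DNS) (hCHZ : ST_CHZ) (hALS : ST_ALS) (h : Sd lev l C W)
    (ha : la lev l a) (hF : Integrable F (mm N))
    (hFa : AM (mm N) (AL lev l) (fun x => conj (ex a x) * F x)) :
    AM (mm N) (AL lev l) (fun x => conj (ex a x) * ((mm N)[F|jo C (sg W)]) x) := by
  by_cases hno : ∃ ψ ∈ W, AM (mm N) (AL lev l) (fun x => conj (ex a x) * ψ x)
  · obtain ⟨ψ, hψW, hψa⟩ := hno
    have h1 := ce_step1 hDNS hCHZ hALS h ha hψW hψa hF hFa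
    have h2 : AM (mm N) (AL lev l) ((mm N)[fun x => F x * conj (ψ x)|C]) := h.le _ am_ce
    refine am_congr (am_mul hψa h2) ?_
    filter_upwards [h1] with x hx
    rw [hx]
    ring
  · have h1 := ce_step0 hDNS hCHZ hALS h ha hno hF hFa
    refine am_congr (am_const (μ := mm N) (𝒜 := AL lev l) 0) ?_
    filter_upwards [h1] with x hx
    rw [hx]
    simp

end torus

end Pool.Agent.Helper60.TWR
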